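import Pool.Agent.Y33.Free.Main

/-! # Free subgroups of groups with infinite strongly `σ`-compact Morse boundary -/

set_option autoImplicit false

namespace Pool.Agent.Results.MP_689e6f_al.SigmaCompactFree

open Pool.Agent.H659R3.MorseLim

/-- `X` is strongly `σ`-compact, a direct limit of countably many compact spaces: there are
countably many compact spaces with maps to `X` such that every point of `X` lies in one of the
images, and a subset of `X` is open if and only if all its preimages are open. -/
def StronglySigmaCompact (X : Type) [TopologicalSpace X] : Prop :=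
  ∃ (Y : ℕ → Type) (_ : ∀ n, TopologicalSpace (Y n)) (f : ∀ n, Y n → X),
    (∀ n, CompactSpace (Y n)) ∧ (∀ x, ∃ n y, f n y = x) ∧
      ∀ U : Set X, IsOpen U ↔ ∀ n, IsOpen (f n ⁻¹' U)

theorem StronglySigmaCompact.sigmaCompact {X : Type} [TopologicalSpace X]
    (h : StronglySigmaCompact X) : SigmaCompactSpace X := by
  obtain ⟨Y, _, f, hY, hs, ho⟩ := h
  have hc : ∀ n, Continuous (f n) := fun n => continuous_def.2 fun U hU => (ho U).1 hU n
  refine SigmaCompactSpace.of_countable (Set.range fun n => Set.range (f n))
    (Set.countable_range _) ?_ ?_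
  · rintro _ ⟨n, rfl⟩
    exact isCompact_range (hc n)
  · refine Set.eq_univ_of_forall fun x => ?_
    obtain ⟨n, y, hy⟩ := hs x
    exact ⟨_, ⟨n, rfl⟩, y, hy⟩

/-- A finitely generated group whose Morse boundary is infinite and strongly `σ`-compact (or
merely `σ`-compact) contains a free subgroup of rank two. -/
theorem result (G : Type) [Group G] (A : FinGen G) (hinf : Infinite (MorseBoundary A))
    (hσ : StronglySigmaCompact (MorseBoundary A) ∨ SigmaCompactSpace (MorseBoundary A)) :
    ∃ φ : FreeGroup (Fin 2) →* G, Function.Injective φ := by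
  haveI := hinf
  haveI : SigmaCompactSpace (MorseBoundary A) := hσ.elim (fun h => h.sigmaCompact) id
  exact Pool.Agent.Y33.Free.free_of_sigmaCompact A

end Pool.Agent.Results.MP_689e6f_al.SigmaCompactFree
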